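import Pool.Agent.H357R2.SI.Moment

set_option autoImplicit false
set_option linter.unusedVariables false

/-! # The second moment of the primes in windows, uniformly in the length -/

namespace Pool.Agent.Y831.RC

open Finset Filter Pool.Agent.H357R2.SI

/-- The second moment of the primes in windows of length between `log N` and `N`. -/
theorem sm9 : ∃ C : ℝ, 1 ≤ C ∧ ∃ N₀ : ℕ, 3 ≤ N₀ ∧ ∀ N T : ℕ, N₀ ≤ N → T ≤ N →
    Real.log N ≤ T →
    ∑ n ∈ Finset.range N, ((pc n (n + T) : ℝ)) ^ 2 ≤ C * (T:ℝ) ^ 2 * (N / Real.log N ^ 2) := by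
  obtain ⟨C1, hC1, u0, hps⟩ := pair_sieve
  obtain ⟨C2, hC2, hsg⟩ := sum_sg_sq
  obtain ⟨X₀, hX₀, hpnt⟩ := pnt 1 one_pos
  refine ⟨4 + 4 * C1 * C2, by nlinarith, max X₀ u0, by omega, ?_⟩
  intro N T hN hTNn hT
  have hNX : X₀ ≤ N := (le_max_left _ _).trans hN
  have hNu : u0 ≤ N := (le_max_right _ _).trans hN
  have hN3 : (3 : ℝ) ≤ N := by exact_mod_cast hX₀.trans hNX
  have hL : 0 < Real.log N := Real.log_pos (by linarith)
  have hTN' : (T : ℝ) ≤ N := by exact_mod_cast hTNn
  have hT0 : (0 : ℝ) ≤ T := Nat.cast_nonneg T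
  have h1 : (∑ n ∈ Finset.range N, ((pc n (n + T) : ℝ)) ^ 2) ≤
      T * (((PZ (N + T)).card : ℝ) + 2 * ∑ h ∈ Finset.Icc 1 T,
        (((Finset.Ioc 0 (N + T)).filter (fun n => n.Prime ∧ (n + h).Prime)).card : ℝ)) := by
    exact_mod_cast second_moment N T
  have hlogZ : Real.log N ≤ Real.log ((N + T : ℕ) : ℝ) := by
    apply Real.log_le_log (by linarith)
    push_cast; linarith
  have h2 : ((PZ (N + T)).card : ℝ) ≤ 4 * N / Real.log N := by
    have h3 : (PZ (N + T)).card = Nat.primeCounting (N + T) := pc_zero (N + T)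
    rw [h3]
    refine (hpnt (N + T) (by omega)).2.trans ?_
    apply div_le_div₀ (by positivity) _ hL hlogZ
    push_cast
    linarith
  have h3 : ∀ h ∈ Finset.Icc 1 T,
      (((Finset.Ioc 0 (N + T)).filter (fun n => n.Prime ∧ (n + h).Prime)).card : ℝ) ≤
      2 * C1 * N / Real.log N ^ 2 * sg h ^ 2 := by
    intro h hh
    rw [Finset.mem_Icc] at hh
    have h4 := hps h 0 (N + T) (by omega) (by omega)
    rw [zero_add] at h4
    refine h4.trans ?_
    calc C1 * sg h ^ 2 * ((N + T : ℕ) : ℝ) / Real.log ((N + T : ℕ) : ℝ) ^ 2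
        ≤ C1 * sg h ^ 2 * (2 * N) / Real.log N ^ 2 := by
          apply div_le_div₀ (by positivity) _ (by positivity)
          · gcongr
          · push_cast
            gcongr
            linarith
      _ = 2 * C1 * N / Real.log N ^ 2 * sg h ^ 2 := by ring
  have h4 : ∑ h ∈ Finset.Icc 1 T,
      (((Finset.Ioc 0 (N + T)).filter (fun n => n.Prime ∧ (n + h).Prime)).card : ℝ) ≤
      2 * C1 * N / Real.log N ^ 2 * (C2 * T) := by
    refine (Finset.sum_le_sum h3).trans ?_
    rw [← Finset.mul_sum]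
    exact mul_le_mul_of_nonneg_left (hsg T) (by positivity)
  have h5 : 4 * N / Real.log N ≤ 4 * N * T / Real.log N ^ 2 := by
    rw [div_le_div_iff₀ hL (by positivity)]
    have h6 : (4 * (N:ℝ) * Real.log N) * Real.log N ≤ (4 * N * Real.log N) * T :=
      mul_le_mul_of_nonneg_left hT (by positivity)
    nlinarith
  calc _ ≤ _ := h1
    _ ≤ T * (4 * N * T / Real.log N ^ 2 + 2 * (2 * C1 * N / Real.log N ^ 2 * (C2 * T))) := by
        apply mul_le_mul_of_nonneg_left _ hT0
        have := h2.trans h5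
        linarith
    _ = (4 + 4 * C1 * C2) * (T:ℝ) ^ 2 * (N / Real.log N ^ 2) := by field_simp; ring

end Pool.Agent.Y831.RC
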