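import Pool.Agent.Y831.RC8.Full8
import Pool.Agent.Y831.RC9.Mom

set_option autoImplicit false
set_option linter.unusedVariables false

/-! # Long runs after almost all primes -/

namespace Pool.Agent.Y831.RC

open Finset Filter Pool.Agent.H357R2.SI

open scoped Classical

/-- double counting -/
theorem dc9 (N H : ℕ) (bad : ℕ → Prop) (E : ℕ → Prop)
    (hbad : ∀ p m : ℕ, bad p → m < p → p ≤ m + H → E (m + H)) :
    ((((range N).filter (fun p => p.Prime ∧ H ≤ p ∧ bad p)).card * H : ℕ) : ℝ) ^ 2 ≤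
      (((range N).filter (fun m => E (m + H))).card : ℝ) *
        ∑ n ∈ range N, ((pc n (n + H) : ℝ)) ^ 2 := by
  set B := (range N).filter (fun p => p.Prime ∧ H ≤ p ∧ bad p) with hB
  set Em := (range N).filter (fun m => E (m + H)) with hEm
  have h1 : B.card * H ≤ ∑ m ∈ Em, pc m (m + H) := by
    calc B.card * H = ∑ p ∈ B, H := by rw [Finset.sum_const, smul_eq_mul]
      _ ≤ ∑ p ∈ B, (Em.filter (fun m => m < p ∧ p ≤ m + H)).card := by
          apply Finset.sum_le_sum
          intro p hp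
          rw [hB, Finset.mem_filter, Finset.mem_range] at hp
          obtain ⟨hpN, _, hpH, hpb⟩ := hp
          have e1 : (Ico (p - H) p).card = H := by rw [Nat.card_Ico]; omega
          calc H = (Ico (p - H) p).card := e1.symm
            _ ≤ (Em.filter (fun m => m < p ∧ p ≤ m + H)).card := by
                apply Finset.card_le_card
                intro m hm
                rw [Finset.mem_Ico] at hm
                rw [Finset.mem_filter, hEm, Finset.mem_filter, Finset.mem_range]
                refine ⟨⟨by omega, hbad p m hpb (by omega) (by omega)⟩, by omega, by omega⟩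
      _ = ∑ p ∈ B, ∑ m ∈ Em, (if m < p ∧ p ≤ m + H then 1 else 0) := by
          simp only [Finset.card_filter]
      _ = ∑ m ∈ Em, ∑ p ∈ B, (if m < p ∧ p ≤ m + H then 1 else 0) := Finset.sum_comm
      _ ≤ ∑ m ∈ Em, pc m (m + H) := by
          apply Finset.sum_le_sum
          intro m _
          rw [← Finset.card_filter]
          unfold pc
          apply Finset.card_le_card
          intro p hp
          rw [Finset.mem_filter] at hp ⊢
          rw [hB, Finset.mem_filter] at hp
          rw [Finset.mem_Ioc]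
          exact ⟨hp.2, hp.1.2.1⟩
  have h2 : ((B.card * H : ℕ) : ℝ) ≤ ∑ m ∈ Em, (pc m (m + H) : ℝ) := by exact_mod_cast h1
  have h3 : ((B.card * H : ℕ) : ℝ) ^ 2 ≤ (∑ m ∈ Em, (pc m (m + H) : ℝ)) ^ 2 :=
    pow_le_pow_left₀ (Nat.cast_nonneg _) h2 2
  refine h3.trans (sq_sum_le_card_mul_sum_sq.trans ?_)
  apply mul_le_mul_of_nonneg_left _ (Nat.cast_nonneg _)
  apply Finset.sum_le_sum_of_subset_of_nonneg (Finset.filter_subset _ _)
  intro m _ _
  positivity

theorem LongRun.shift {F y h : ℝ} {n p : ℤ} (hr : LongRun F y h n) (h1 : p ≤ n)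
    (h2 : (n:ℝ) ≤ p + h) : LongRun F y (2 * h) p := by
  obtain ⟨a, e1, e2, e3⟩ := hr
  exact ⟨a, h1.trans e1, by linarith, e3⟩

/-- after almost all primes `p ≤ X` there are `c log X log T` consecutive integers with a prime
factor at most `X^δ` in `(p, p + 2 e^T log X]` -/
theorem prim9 (c δ ε : ℝ) (hc : 0 < c) (hc4 : c < 1 / 4) (hδ : 0 < δ) (hε : 0 < ε) :
    ∃ T₀ X₀ : ℝ, ∀ X : ℝ, X₀ ≤ X → ∀ T : ℝ, T₀ ≤ T → T ≤ (Real.log X) ^ (1 / 8 : ℝ) →
      (((range (⌊X⌋₊ + 1)).filter (fun p : ℕ => p.Prime ∧ ¬ LongRun (c * (Real.log X * Real.log T))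
        (X ^ δ) (2 * (Real.exp T * Real.log X)) p)).card : ℝ) ≤ ε * (X / Real.log X) := by
  obtain ⟨C, hC1, N₀, hN₀, hsm⟩ := sm9
  have hC0 : 0 < C := by linarith
  obtain ⟨T₁, X₁, h1⟩ := almost9 c δ (ε ^ 2 / (16 * C)) hc hc4 hδ (by positivity)
  refine ⟨max T₁ 1, max (max X₁ N₀) (Real.exp (96 / ε + 16)), fun X hX T hT hTL => ?_⟩
  have hX1 : X₁ ≤ X := ((le_max_left _ _).trans (le_max_left _ _)).trans hX
  have hXN : (N₀:ℝ) ≤ X := ((le_max_right _ _).trans (le_max_left _ _)).trans hX
  have hX3 : Real.exp (96 / ε + 16) ≤ X := (le_max_right _ _).trans hX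
  have hX0 : 0 < X := (Real.exp_pos _).trans_le hX3
  have hL3 : 96 / ε + 16 ≤ Real.log X := by
    rw [Real.le_log_iff_exp_le hX0]
    exact hX3
  have hT1 : T₁ ≤ T := (le_max_left _ _).trans hT
  have hT11 : 1 ≤ T := (le_max_right _ _).trans hT
  have hXL : Real.exp (Real.log X) = X := Real.exp_log hX0
  set L := Real.log X with hL
  have h96 : 0 < 96 / ε := by positivity
  have hL16 : 16 ≤ L := by linarith
  have hL0 : 0 < L := by linarith
  have hε96 : 96 ≤ ε * L := by
    have : 96 / ε ≤ L := by linarith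
    rw [div_le_iff₀ hε] at this
    linarith
  have hTL2 : T ≤ L / 2 := by
    refine hTL.trans ?_
    have e1 : L ^ (1 / 8 : ℝ) ≤ L ^ (1 / 2 : ℝ) :=
      Real.rpow_le_rpow_of_exponent_le (by linarith) (by norm_num)
    rw [← Real.sqrt_eq_rpow] at e1
    have e2 : Real.sqrt L ≤ L / 2 := by
      rw [Real.sqrt_le_left (by positivity)]
      nlinarith
    exact e1.trans e2
  -- size of the windows
  set h := Real.exp T * L with hh
  have hexpT : Real.exp 1 ≤ Real.exp T := Real.exp_le_exp.2 hT11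
  have he2 : 2 ≤ Real.exp 1 := by
    have := Real.add_one_le_exp (1:ℝ)
    linarith
  have hh2 : 2 * L ≤ h := mul_le_mul_of_nonneg_right (he2.trans hexpT) hL0.le
  have hh0 : 0 ≤ h := by positivity
  have hhX : h * L ≤ ε / 2 * X := by
    have e1 : L ^ 3 / 48 ≤ Real.exp (L / 2) := by
      have := Real.pow_div_factorial_le_exp (L / 2) (by positivity) 3
      have e2 : ((Nat.factorial 3 : ℕ) : ℝ) = 6 := by norm_num [Nat.factorial]
      rw [e2] at this
      have e3 : (L / 2) ^ 3 / 6 = L ^ 3 / 48 := by ring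
      rwa [e3] at this
    have e4 : h * L ≤ Real.exp (L / 2) * L ^ 2 := by
      have : Real.exp T ≤ Real.exp (L / 2) := Real.exp_le_exp.2 hTL2
      have e5 := mul_le_mul_of_nonneg_right this (show 0 ≤ L ^ 2 by positivity)
      have e6 : h * L = Real.exp T * L ^ 2 := by rw [hh]; ring
      rw [e6]
      exact e5
    have e7 : L ^ 2 ≤ ε / 2 * Real.exp (L / 2) := by
      have e8 : L ^ 2 * 96 ≤ L ^ 2 * (ε * L) := mul_le_mul_of_nonneg_left hε96 (by positivity)
      have e9 : ε / 2 * (L ^ 3 / 48) ≤ ε / 2 * Real.exp (L / 2) :=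
        mul_le_mul_of_nonneg_left e1 (by positivity)
      have e10 : ε / 2 * (L ^ 3 / 48) = L ^ 2 * (ε * L) / 96 := by ring
      rw [e10] at e9
      linarith
    have e11 : Real.exp (L / 2) * Real.exp (L / 2) = X := by
      rw [← Real.exp_add, ← hXL]
      congr 1
      ring
    have e12 : 0 < Real.exp (L / 2) := Real.exp_pos _
    calc h * L ≤ Real.exp (L / 2) * L ^ 2 := e4
      _ ≤ Real.exp (L / 2) * (ε / 2 * Real.exp (L / 2)) := mul_le_mul_of_nonneg_left e7 e12.le
      _ = ε / 2 * (Real.exp (L / 2) * Real.exp (L / 2)) := by ring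
      _ = ε / 2 * X := by rw [e11]
  set H : ℕ := ⌊h⌋₊ with hHd
  have hHh : (H:ℝ) ≤ h := Nat.floor_le hh0
  have hHh' : h < H + 1 := Nat.lt_floor_add_one h
  have hX17 : 17 ≤ X := by
    have := Real.add_one_le_exp L
    rw [hXL] at this
    linarith
  have hhX2 : h ≤ X - 1 := by
    -- `h ≤ e^(L/2) L ≤ X - 1`
    have e1 : L ^ 2 / 8 ≤ Real.exp (L / 2) := by
      have := Real.pow_div_factorial_le_exp (L / 2) (by positivity) 2
      have e2 : ((Nat.factorial 2 : ℕ) : ℝ) = 2 := by norm_num [Nat.factorial]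
      rw [e2] at this
      have e3 : (L / 2) ^ 2 / 2 = L ^ 2 / 8 := by ring
      rwa [e3] at this
    have e4 : h ≤ Real.exp (L / 2) * L :=
      mul_le_mul_of_nonneg_right (Real.exp_le_exp.2 hTL2) hL0.le
    have e11 : Real.exp (L / 2) * Real.exp (L / 2) = X := by
      rw [← Real.exp_add, ← hXL]
      congr 1
      ring
    have e12 : L + 1 ≤ Real.exp (L / 2) := by nlinarith
    have e13 : Real.exp (L / 2) * (L + 1) ≤ Real.exp (L / 2) * Real.exp (L / 2) :=
      mul_le_mul_of_nonneg_left e12 (Real.exp_pos _).le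
    nlinarith [Real.exp_pos (L / 2)]
  set N : ℕ := ⌊X⌋₊ + 1 with hN
  have hNX : X ≤ N := by
    rw [hN]
    push_cast
    exact (Nat.lt_floor_add_one X).le
  have hNX2 : (N:ℝ) ≤ X + 1 := by
    rw [hN]
    push_cast
    linarith [Nat.floor_le hX0.le]
  have hNN : N₀ ≤ N := by
    have : (N₀:ℝ) ≤ N := hXN.trans hNX
    exact_mod_cast this
  have hHN : H ≤ N := by
    have : (H:ℝ) ≤ N := by linarith
    exact_mod_cast this
  have hlN : L ≤ Real.log N := Real.log_le_log hX0 hNX
  have hlN2 : Real.log N ≤ H := by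
    have e1 : Real.log N ≤ Real.log (2 * X) := Real.log_le_log (by linarith) (by linarith)
    rw [Real.log_mul (by norm_num) hX0.ne'] at e1
    have e2 := Real.log_two_lt_d9
    linarith
  have hs := hsm N H hNN hHN hlN2
  -- double counting
  set bad : ℕ → Prop := fun p => ¬ LongRun (c * (L * Real.log T)) (X ^ δ) (2 * h) p with hbad
  set E : ℕ → Prop := fun n => ¬ LongRun (c * (L * Real.log T)) (X ^ δ) h n with hE
  have hdc := dc9 N H bad E (by
    intro p m hp h1 h2 hr
    apply hp
    apply hr.shift (n := ((m + H : ℕ) : ℤ))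
    · exact_mod_cast h2
    · have : ((m + H : ℕ) : ℝ) ≤ p + H := by exact_mod_cast (by omega : m + H ≤ p + H)
      push_cast at this ⊢
      linarith)
  -- the exceptional set
  set η := ε ^ 2 / (16 * C) with hη
  have hEm : (((range N).filter (fun m => E (m + H))).card : ℝ) ≤ 2 * (η * X) := by
    have g1 := h1 X hX1 T hT1 hTL (-1)
    have g2 := h1 X hX1 T hT1 hTL (X - 1)
    set E1 := (Ioc ⌊(-1:ℝ)⌋ ⌊-1 + X⌋).filter (fun n : ℤ => ¬ LongRun (c * (L * Real.log T))
      (X ^ δ) (Real.exp T * L) n) with hE1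
    set E2 := (Ioc ⌊X - 1⌋ ⌊X - 1 + X⌋).filter (fun n : ℤ => ¬ LongRun (c * (L * Real.log T))
      (X ^ δ) (Real.exp T * L) n) with hE2
    have g3 : ((range N).filter (fun m => E (m + H))).card ≤ (E1 ∪ E2).card := by
      apply Finset.card_le_card_of_injOn (fun m : ℕ => ((m + H : ℕ) : ℤ))
      · intro m hm
        rw [Finset.mem_coe, Finset.mem_filter, Finset.mem_range] at hm
        have g4 : ¬ LongRun (c * (L * Real.log T)) (X ^ δ) (Real.exp T * L)
          ((m + H : ℕ) : ℤ) := hm.2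
        have g5 : (((m + H : ℕ) : ℤ) : ℝ) ≤ X - 1 + X := by
          have g6 : (m:ℝ) + 1 ≤ N := by exact_mod_cast hm.1
          push_cast
          linarith
        rw [Finset.mem_coe, Finset.mem_union, hE1, hE2, Finset.mem_filter, Finset.mem_filter,
          Finset.mem_Ioc, Finset.mem_Ioc, Int.floor_lt, Int.floor_lt, Int.le_floor, Int.le_floor]
        by_cases g7 : (((m + H : ℕ) : ℤ) : ℝ) ≤ -1 + X
        · left
          refine ⟨⟨?_, g7⟩, g4⟩
          have : (0:ℝ) ≤ (((m + H : ℕ) : ℤ) : ℝ) := by positivity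
          linarith
        · right
          push Not at g7
          exact ⟨⟨by linarith, g5⟩, g4⟩
      · intro m _ m' _ hmm
        simp only at hmm
        have : m + H = m' + H := by exact_mod_cast hmm
        omega
    have g8 : ((E1 ∪ E2).card : ℝ) ≤ E1.card + E2.card := by
      exact_mod_cast Finset.card_union_le E1 E2
    have g9 : (((range N).filter (fun m => E (m + H))).card : ℝ) ≤ ((E1 ∪ E2).card : ℝ) := by
      exact_mod_cast g3
    linarith
  set B := (range N).filter (fun p => p.Prime ∧ H ≤ p ∧ bad p) with hB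
  have hH0 : (0:ℝ) < H := by linarith
  have hdc' : ((B.card * H : ℕ) : ℝ) ^ 2 ≤ (((range N).filter (fun m => E (m + H))).card : ℝ) *
      ∑ n ∈ range N, ((pc n (n + H) : ℝ)) ^ 2 := by
    convert hdc
  have hBb : (B.card : ℝ) ≤ ε / 2 * (X / L) := by
    have hη0 : 0 < η := by rw [hη]; positivity
    have hX2 : 0 ≤ 2 * (η * X) := by positivity
    have e1 : ((B.card * H : ℕ) : ℝ) ^ 2 ≤ 2 * (η * X) * (C * (H:ℝ) ^ 2 * (N / Real.log N ^ 2)) :=
      hdc'.trans (mul_le_mul hEm hs (Finset.sum_nonneg fun _ _ => sq_nonneg _) hX2)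
    have e2 : (N:ℝ) / Real.log N ^ 2 ≤ 2 * X / L ^ 2 := by
      apply div_le_div₀ (by positivity) (by linarith) (by positivity)
      exact pow_le_pow_left₀ hL0.le hlN 2
    have e3 : 2 * (η * X) * (C * (H:ℝ) ^ 2 * (N / Real.log N ^ 2)) ≤
        2 * (η * X) * (C * (H:ℝ) ^ 2 * (2 * X / L ^ 2)) := by
      apply mul_le_mul_of_nonneg_left _ (by positivity)
      exact mul_le_mul_of_nonneg_left e2 (by positivity)
    have e4 : 2 * (η * X) * (C * (H:ℝ) ^ 2 * (2 * X / L ^ 2)) = (ε / 2 * (X / L) * H) ^ 2 := by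
      rw [hη]
      field_simp
      ring
    have e5 := e1.trans (e3.trans (le_of_eq e4))
    have e6 : ((B.card * H : ℕ) : ℝ) ≤ ε / 2 * (X / L) * H :=
      (sq_le_sq₀ (Nat.cast_nonneg _) (by positivity)).1 e5
    push_cast at e6
    exact le_of_mul_le_mul_right e6 hH0
  have hsub : (range N).filter (fun p : ℕ => p.Prime ∧ bad p) ⊆ B ∪ range H := by
    intro p hp
    rw [Finset.mem_filter] at hp
    rw [Finset.mem_union, hB, Finset.mem_filter, Finset.mem_range (n := H)]
    by_cases hpH : H ≤ p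
    · exact Or.inl ⟨hp.1, hp.2.1, hpH, hp.2.2⟩
    · exact Or.inr (not_le.1 hpH)
  have hcard := (Finset.card_le_card hsub).trans (Finset.card_union_le _ _)
  rw [Finset.card_range] at hcard
  have hcard' : (((range N).filter (fun p : ℕ => p.Prime ∧ bad p)).card : ℝ) ≤ B.card + H := by
    exact_mod_cast hcard
  have hHX : (H:ℝ) ≤ ε / 2 * (X / L) := by
    rw [← mul_div_assoc, le_div_iff₀ hL0]
    have := mul_le_mul_of_nonneg_right hHh hL0.le
    linarith
  have hfin : (((range N).filter (fun p : ℕ => p.Prime ∧ bad p)).card : ℝ) ≤ ε * (X / L) := by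
    linarith
  exact hfin

/-- after almost all primes `p ≤ X` there are `c log X min (log T) (log log X / 8)` consecutive
integers with a prime factor at most `X^δ` in `(p, p + e^T log X]`, if `c < 1 / 4`, uniformly for
all `T ≥ T₀` -/
theorem prim10 (c δ ε : ℝ) (hc : 0 < c) (hc4 : c < 1 / 4) (hδ : 0 < δ) (hε : 0 < ε) :
    ∃ T₀ X₀ : ℝ, ∀ X : ℝ, X₀ ≤ X → ∀ T : ℝ, T₀ ≤ T →
      (((range (⌊X⌋₊ + 1)).filter (fun p : ℕ => p.Prime ∧ ¬ LongRun
        (c * (Real.log X * min (Real.log T) (Real.log (Real.log X) / 8)))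
        (X ^ δ) (Real.exp T * Real.log X) p)).card : ℝ) ≤ ε * (X / Real.log X) := by
  obtain ⟨c', hcc', hc'4⟩ : ∃ c' : ℝ, c < c' ∧ c' < 1 / 4 :=
    ⟨(c + 1 / 4) / 2, by linarith, by linarith⟩
  obtain ⟨T₁, X₁, h1⟩ := prim9 c' δ ε (hc.trans hcc') hc'4 hδ hε
  have hd : 0 < c' - c := by linarith
  set T₂ := max (max T₁ 1 + Real.log 2) (max 2 (Real.exp (c' / (c' - c)))) with hT₂
  refine ⟨T₂, max X₁ (Real.exp (T₂ ^ 8)), fun X hX T hT => ?_⟩
  have hX1 : X₁ ≤ X := (le_max_left _ _).trans hX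
  have hX3 : Real.exp (T₂ ^ 8) ≤ X := (le_max_right _ _).trans hX
  have hX0 : 0 < X := (Real.exp_pos _).trans_le hX3
  have hL3 : T₂ ^ 8 ≤ Real.log X := by
    rw [Real.le_log_iff_exp_le hX0]
    exact hX3
  have hT22 : 2 ≤ T₂ := (le_max_left _ _).trans (le_max_right _ _)
  have hT20 : 0 ≤ T₂ := by linarith
  have hL1 : 1 ≤ Real.log X := (one_le_pow₀ (by linarith)).trans hL3
  have hL0 : 0 < Real.log X := by linarith
  have hs : T₂ ≤ (Real.log X) ^ (1 / 8 : ℝ) := by
    have e1 := Real.rpow_le_rpow (pow_nonneg hT20 8) hL3 (show (0:ℝ) ≤ 1 / 8 by norm_num)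
    have e2 : (T₂ ^ 8) ^ (1 / 8 : ℝ) = T₂ := by
      rw [← Real.rpow_natCast, ← Real.rpow_mul hT20]
      norm_num
    rwa [e2] at e1
  have hlogs : Real.log ((Real.log X) ^ (1 / 8 : ℝ)) = Real.log (Real.log X) / 8 := by
    rw [Real.log_rpow hL0]
    ring
  -- the main range
  have key : ∀ T' : ℝ, T₂ ≤ T' → T' ≤ (Real.log X) ^ (1 / 8 : ℝ) → T' ≤ T →
      min (Real.log T) (Real.log (Real.log X) / 8) ≤ Real.log T' →
      (((range (⌊X⌋₊ + 1)).filter (fun p : ℕ => p.Prime ∧ ¬ LongRun
        (c * (Real.log X * min (Real.log T) (Real.log (Real.log X) / 8)))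
        (X ^ δ) (Real.exp T * Real.log X) p)).card : ℝ) ≤ ε * (X / Real.log X) := by
    intro T' hT' hT'L hT'T hmin
    have hT'2 : 2 ≤ T' := hT22.trans hT'
    have hT'1 : max T₁ 1 + Real.log 2 ≤ T' := (le_max_left _ _).trans hT'
    have hT'e : Real.exp (c' / (c' - c)) ≤ T' :=
      ((le_max_right _ _).trans (le_max_right _ _)).trans hT'
    have hl2 : 0 < Real.log 2 := Real.log_pos (by norm_num)
    have hl2' : Real.log 2 ≤ 1 := by
      have := Real.log_two_lt_d9
      linarith
    have hlogT' : c' / (c' - c) ≤ Real.log T' := by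
      rw [Real.le_log_iff_exp_le (by linarith)]
      exact hT'e
    have h2 := h1 X hX1 (T' - Real.log 2) (by linarith [le_max_left T₁ 1]) (by linarith)
    refine le_trans ?_ h2
    have hsub : (range (⌊X⌋₊ + 1)).filter (fun p : ℕ => p.Prime ∧ ¬ LongRun
        (c * (Real.log X * min (Real.log T) (Real.log (Real.log X) / 8)))
        (X ^ δ) (Real.exp T * Real.log X) p) ⊆
        (range (⌊X⌋₊ + 1)).filter (fun p : ℕ => p.Prime ∧ ¬ LongRun
        (c' * (Real.log X * Real.log (T' - Real.log 2)))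
        (X ^ δ) (2 * (Real.exp (T' - Real.log 2) * Real.log X)) p) := by
      intro p hp
      rw [Finset.mem_filter] at hp ⊢
      refine ⟨hp.1, hp.2.1, fun hrun => hp.2.2 (hrun.mono ?_ ?_)⟩
      · have e1 : Real.log T' - Real.log 2 ≤ Real.log (T' - Real.log 2) := by
          rw [← Real.log_div (by linarith) (by norm_num)]
          apply Real.log_le_log (by linarith)
          linarith
        have e2 : c * Real.log T' ≤ c' * Real.log (T' - Real.log 2) := by
          have e3 : c' * (Real.log T' - Real.log 2) ≤ c' * Real.log (T' - Real.log 2) :=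
            mul_le_mul_of_nonneg_left e1 (by linarith)
          have e4 : c' ≤ (c' - c) * Real.log T' := by
            rw [div_le_iff₀ hd] at hlogT'
            linarith
          have e5 : c' * Real.log 2 ≤ c' * 1 := mul_le_mul_of_nonneg_left hl2' (by linarith)
          nlinarith
        have e6 : c * min (Real.log T) (Real.log (Real.log X) / 8) ≤ c * Real.log T' :=
          mul_le_mul_of_nonneg_left hmin hc.le
        have e7 := mul_le_mul_of_nonneg_left (e6.trans e2) hL0.le
        calc c * (Real.log X * min (Real.log T) (Real.log (Real.log X) / 8)) =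
            Real.log X * (c * min (Real.log T) (Real.log (Real.log X) / 8)) := by ring
          _ ≤ Real.log X * (c' * Real.log (T' - Real.log 2)) := e7
          _ = _ := by ring
      · have e1 : 2 * (Real.exp (T' - Real.log 2) * Real.log X) = Real.exp T' * Real.log X := by
          rw [Real.exp_sub, Real.exp_log (by norm_num)]
          ring
        rw [e1]
        exact mul_le_mul_of_nonneg_right (Real.exp_le_exp.2 hT'T) hL0.le
    exact_mod_cast Finset.card_le_card hsub
  by_cases hTs : T ≤ (Real.log X) ^ (1 / 8 : ℝ)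
  · exact key T hT hTs le_rfl (min_le_left _ _)
  · push Not at hTs
    exact key _ hs le_rfl hTs.le (by rw [hlogs]; exact min_le_right _ _)

end Pool.Agent.Y831.RC
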